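import Mathlib
import Pool.Agent.Lib.MP_8b1d3b_lc.H13DCNum
import Pool.Agent.Lib.MP_8b1d3b_lc.DCLemma

set_option autoImplicit false

namespace Pool.Agent.Results.MP_8b1d3b_lc.BorderDC

theorem result : ∃ n₀ : ℕ, ∀ n : ℕ, n₀ ≤ n → ∀ m : ℕ,
    (∀ ε : ℝ, 0 < ε → ∃ A : Matrix (Fin m) (Fin m) (MvPolynomial (Fin n × Fin n) ℂ),
      (∀ i j, (A i j).totalDegree ≤ 1) ∧
        ∀ d : Fin n × Fin n →₀ ℕ, ‖MvPolynomial.coeff d A.det - MvPolynomial.coeff d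
          (Matrix.permanent (Matrix.of fun i j : Fin n =>
            (MvPolynomial.X (i, j) : MvPolynomial (Fin n × Fin n) ℂ)))‖ < ε) →
    (n : ℝ) ^ 3 ≤ 100000 * (m : ℝ) * Real.log n :=
  ⟨14 * 11 * 2 ^ 11, fun _ hn _ h =>
    Pool.Agent.Lib.MP_8b1d3b_lc.H13.border_dc
      (fun f π hπ _ _ _ H0 H1 H2 hb τ hτ =>
        Pool.Agent.Lib.MP_8b1d3b_lc.DC.degree_lemma f π hπ H0 H1 H2 hb τ hτ) hn h⟩

end Pool.Agent.Results.MP_8b1d3b_lc.BorderDC
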