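import Pool.Agent.Lib.MP_8b1d3b_lc.CD.Main2

namespace Pool.Agent.Results.MP_8b1d3b_lc.ConstDepth

open MvPolynomial

/-- A circuit with `m` gates `g i` (variables, constants, linear combinations and products of powers
of earlier gates) whose levels `δ i` increase at products, and which computes the `n × n` permanent
at level at most `Δ`, satisfies `2 ^ t ≤ (m n ^ 9) ^ (2 Δ)` for `t` of order `n ^ (1 / (F - 1))`,
`F` the Fibonacci number of index `2 Δ + 2`. -/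
theorem result (K : Type) [Field K] [CharZero K] (n m Δ t : ℕ) (ht : 0 < t)
    (hn : (108 * t) ^ Nat.fib (2 * Δ + 2) ≤ 9 * n * t)
    (g : Fin m → MvPolynomial (Fin n × Fin n) K) (δ : Fin m → ℕ)
    (hg : ∀ i, (∃ v, g i = X v) ∨ (∃ c, g i = C c) ∨
      (∃ a : Fin m → K, (∀ j, a j ≠ 0 → j < i ∧ δ j ≤ δ i) ∧ g i = ∑ j, a j • g j) ∨
      ∃ e : Fin m → ℕ, (∀ j, e j ≠ 0 → j < i ∧ δ j < δ i) ∧ g i = ∏ j, g j ^ e j)
    (i : Fin m) (hi : δ i ≤ Δ)
    (h : g i = Matrix.permanent (Matrix.of fun r c : Fin n => X (r, c))) :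
    2 ^ t ≤ (m * n ^ 9) ^ (2 * Δ) :=
  Pool.Agent.Lib.MP_8b1d3b_lc.CD.main2 K n m Δ t ht hn g δ hg i hi h

end Pool.Agent.Results.MP_8b1d3b_lc.ConstDepth
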