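import Pool.Agent.Lib.MP_8b1d3b_lc.NG.Main

set_option autoImplicit false

/-- A program with `m + 1` steps and arbitrary rational constants for the generic `n × n` permanent
yields a circuit of negated conjunctions of size polynomial in `m + n` for all binary digits of the
permanent of zero-one matrices. -/
theorem Pool.Agent.Results.MP_8b1d3b_lc.NoGRH.result : ∃ c : ℕ,
    ∀ (n m : ℕ) (g : Fin (m + 1) → MvPolynomial (Fin n × Fin n) ℚ),
      (∀ i : Fin (m + 1),
        (∃ v : Fin n × Fin n, g i = MvPolynomial.X v) ∨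
        (∃ a : ℚ, g i = MvPolynomial.C a) ∨
        ∃ a b : Fin (m + 1), a < i ∧ b < i ∧ (g i = g a + g b ∨ g i = g a * g b)) →
      g (Fin.last m) =
        Matrix.permanent (Matrix.of fun i j : Fin n =>
          (MvPolynomial.X (i, j) : MvPolynomial (Fin n × Fin n) ℚ)) →
      ∃ (M : ℕ) (w : Fin M → (Fin n × Fin n → Bool) → Bool), M ≤ (m + n + 2) ^ c ∧
        (∀ i : Fin M,
          (∃ v : Fin n × Fin n, w i = fun A => A v) ∨
          (∃ b : Bool, w i = fun _ => b) ∨
          ∃ a b : Fin M, a < i ∧ b < i ∧ w i = fun A => !(w a A && w b A)) ∧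
        ∀ k : ℕ, ∃ i : Fin M, ∀ A : Fin n × Fin n → Bool,
          w i A = (Matrix.permanent (Matrix.of fun i j : Fin n => (A (i, j)).toNat)).testBit k := by
  obtain ⟨c, hc⟩ := Pool.Agent.Lib.MP_8b1d3b_lc.NG.transfer
  obtain ⟨c', hc'⟩ := Pool.Agent.Lib.MP_8b1d3b_lc.NG.boolean c
  refine ⟨c', fun n m g h1 h2 => ?_⟩
  obtain ⟨S, hS, h⟩ := hc n m g h1 h2
  exact hc' n m S hS h
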